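import Mathlib

/-!
Ekeland's variational principle.
-/

set_option autoImplicit false

open scoped Topology
open Filter Set

namespace Pool.Agent.Helper74.Full

namespace Ekeland

variable {Y : Type*} [MetricSpace Y]

/-- the set of points below `y` -/
def S (φ : Y → ℝ) (ε : ℝ) (y : Y) : Set Y := {z | φ z + ε * dist y z ≤ φ y}

lemma mem_self (φ : Y → ℝ) (ε : ℝ) (y : Y) : y ∈ S φ ε y := by simp [S]

lemma mem_trans {φ : Y → ℝ} {ε : ℝ} (hε : 0 < ε) {y z z' : Y} (h : z ∈ S φ ε y)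
    (h' : z' ∈ S φ ε z) : z' ∈ S φ ε y := by
  have h1 : φ z + ε * dist y z ≤ φ y := h
  have h2 : φ z' + ε * dist z z' ≤ φ z := h'
  have h3 := mul_le_mul_of_nonneg_left (dist_triangle y z z') hε.le
  show φ z' + ε * dist y z' ≤ φ y
  linarith

lemma exists_near {φ : Y → ℝ} {B : ℝ} (hB : ∀ y, B ≤ φ y) (ε : ℝ) (y : Y) (n : ℕ) :
    ∃ z ∈ S φ ε y, ∀ z' ∈ S φ ε y, φ z ≤ φ z' + (1 / 2) ^ n := by
  have hbdd : BddBelow (φ '' S φ ε y) := ⟨B, by rintro _ ⟨z, -, rfl⟩; exact hB z⟩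
  have hne : (φ '' S φ ε y).Nonempty := ⟨φ y, y, mem_self φ ε y, rfl⟩
  have hpos : (0 : ℝ) < (1 / 2) ^ n := by positivity
  obtain ⟨_, ⟨z, hz, rfl⟩, hlt⟩ := exists_lt_of_csInf_lt hne
    (lt_add_of_pos_right (sInf (φ '' S φ ε y)) hpos)
  refine ⟨z, hz, fun z' hz' => ?_⟩
  have := csInf_le hbdd ⟨z', hz', rfl⟩
  linarith

end Ekeland

open Ekeland

theorem ekeland {Y : Type*} [MetricSpace Y] [CompleteSpace Y] (φ : Y → ℝ) (hφ : Continuous φ)
    (B : ℝ) (hB : ∀ y, B ≤ φ y) (ε : ℝ) (hε : 0 < ε) (y₀ : Y) :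
    ∃ y, φ y + ε * dist y₀ y ≤ φ y₀ ∧ ∀ z, φ y ≤ φ z + ε * dist y z := by
  choose g hg1 hg2 using fun (y : Y) (n : ℕ) => exists_near hB ε y n
  set y : ℕ → Y := fun n => Nat.rec y₀ (fun n z => g z n) n with hy
  have hstep : ∀ n, y (n + 1) = g (y n) n := fun n => rfl
  have hmem : ∀ n m, n ≤ m → y m ∈ S φ ε (y n) := by
    intro n m hnm
    induction m, hnm using Nat.le_induction with
    | base => exact mem_self φ ε _
    | succ m _ ih => exact mem_trans hε ih (by rw [hstep]; exact hg1 _ _)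
  have hsmall : ∀ n z, z ∈ S φ ε (y (n + 1)) → dist (y (n + 1)) z ≤ (1 / 2) ^ n / ε := by
    intro n z hz
    have h1 : φ z + ε * dist (y (n + 1)) z ≤ φ (y (n + 1)) := hz
    have h2 : φ (y (n + 1)) ≤ φ z + (1 / 2) ^ n := by
      have := hg2 (y n) n z (mem_trans hε (hmem n (n + 1) (Nat.le_succ n)) hz)
      rwa [← hstep] at this
    rw [le_div_iff₀ hε]
    nlinarith
  have htend : Tendsto (fun n : ℕ => (1 / 2 : ℝ) ^ n / ε) atTop (𝓝 0) := by
    have := (tendsto_pow_atTop_nhds_zero_of_lt_one (by norm_num : (0 : ℝ) ≤ 1 / 2)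
      (by norm_num)).div_const ε
    simpa using this
  have hcau : CauchySeq fun n => y (n + 1) :=
    cauchySeq_of_le_tendsto_0' (fun n : ℕ => (1 / 2 : ℝ) ^ n / ε)
      (fun n m hnm => hsmall n _ (hmem (n + 1) (m + 1) (by omega))) htend
  obtain ⟨a, ha⟩ := cauchySeq_tendsto_of_complete hcau
  have hclosed : ∀ n, IsClosed (S φ ε (y n)) := fun n =>
    isClosed_le (hφ.add (continuous_const.mul (continuous_const.dist continuous_id)))
      continuous_const
  have haS : ∀ n, a ∈ S φ ε (y n) := by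
    intro n
    refine (hclosed n).mem_of_tendsto ha ?_
    filter_upwards [eventually_ge_atTop n] with m hm
    exact hmem n (m + 1) (by omega)
  refine ⟨a, haS 0, fun z => ?_⟩
  by_contra hc
  push Not at hc
  have hzS : ∀ n, z ∈ S φ ε (y n) := fun n => mem_trans hε (haS n) hc.le
  have hz : Tendsto (fun n => y (n + 1)) atTop (𝓝 z) := by
    rw [tendsto_iff_dist_tendsto_zero]
    exact squeeze_zero (fun n => dist_nonneg) (fun n => hsmall n z (hzS (n + 1))) htend
  have : a = z := tendsto_nhds_unique ha hz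
  rw [this] at hc
  simp at hc

end Pool.Agent.Helper74.Full
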