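import Pool.Agent.Helper74.Full.Defs

/-!
Module Smooth: the norming functionals of a Fréchet smooth norm and the test of Šmulyan.
-/

set_option autoImplicit false

open scoped Topology
open Filter Set

namespace Pool.Agent.Helper74.Full

namespace Smooth

theorem smulyan_aux {X : Type*} [NormedAddCommGroup X] [NormedSpace ℝ X] (x : X)
    (hd : DifferentiableAt ℝ (fun y : X => ‖y‖) x) (ε : ℝ) (hε : 0 < ε) :
    ∃ δ > 0, ∀ k : X →L[ℝ] ℝ, ‖k‖ ≤ 1 → ‖x‖ - δ ≤ k x →
      ‖k - fderiv ℝ (fun y : X => ‖y‖) x‖ ≤ ε := by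
  set f := fderiv ℝ (fun y : X => ‖y‖) x with hf
  have h1 : HasFDerivAt (fun y : X => ‖y‖) f x := hd.hasFDerivAt
  have h2 := h1.isLittleO
  rw [hasFDerivAt_iff_isLittleO_nhds_zero] at h1
  have h3 := h1.bound (half_pos hε)
  rw [Metric.eventually_nhds_iff] at h3
  obtain ⟨t, ht, hb⟩ := h3
  have ht2 : 0 < t / 2 := half_pos ht
  refine ⟨ε / 2 * (t / 2), by positivity, ?_⟩
  intro k hk hkx
  -- one sided bound for vectors of norm `t / 2`
  have hone : ∀ v : X, ‖v‖ = t / 2 → (k - f) v ≤ ε * (t / 2) := by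
    intro v hv
    have h4 : ‖‖x + v‖ - ‖x‖ - f v‖ ≤ ε / 2 * ‖v‖ := by
      apply hb
      rw [dist_zero_right, hv]; linarith
    rw [Real.norm_eq_abs, abs_le] at h4
    have h5 : k (x + v) ≤ ‖x + v‖ := by
      calc k (x + v) ≤ ‖k (x + v)‖ := le_trans (le_abs_self _) (le_of_eq (Real.norm_eq_abs _).symm)
        _ ≤ ‖k‖ * ‖x + v‖ := k.le_opNorm _
        _ ≤ 1 * ‖x + v‖ := by gcongr
        _ = ‖x + v‖ := one_mul _
    rw [map_add] at h5
    rw [hv] at h4
    simp only [sub_apply]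
    linarith [h4.2]
  refine ContinuousLinearMap.opNorm_le_bound _ hε.le ?_
  intro v
  by_cases hv0 : v = 0
  · simp [hv0]
  · have hvn : 0 < ‖v‖ := norm_pos_iff.mpr hv0
    set c : ℝ := (t / 2) / ‖v‖ with hc
    have hc0 : 0 < c := by positivity
    have hcv : ‖c • v‖ = t / 2 := by
      rw [norm_smul, Real.norm_eq_abs, abs_of_pos hc0, hc]
      field_simp
    have hcv' : ‖(-c) • v‖ = t / 2 := by
      rw [neg_smul, norm_neg, hcv]
    have h6 := hone _ hcv
    have h7 := hone _ hcv'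
    rw [map_smul, smul_eq_mul] at h6 h7
    rw [Real.norm_eq_abs, abs_le]
    have h8 : ε * (t / 2) = c * (ε * ‖v‖) := by
      rw [hc]; field_simp
    rw [h8] at h6 h7
    constructor
    · have : c * (-((k - f) v)) ≤ c * (ε * ‖v‖) := by linarith
      have := le_of_mul_le_mul_left this hc0
      linarith
    · exact le_of_mul_le_mul_left h6 hc0

end Smooth

theorem exists_isSm {X : Type*} [NormedAddCommGroup X] [NormedSpace ℝ X]
    (h : ∀ x : X, x ≠ 0 → DifferentiableAt ℝ (fun y : X => ‖y‖) x) :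
    ∃ f : X → (X →L[ℝ] ℝ), IsSm f := by
  classical
  refine ⟨fun x => if x = 0 then 0 else fderiv ℝ (fun y : X => ‖y‖) x, ?_, ?_, ?_, ?_⟩
  · simp
  · intro x
    by_cases hx : x = 0
    · simp [hx]
    · simp only [hx, if_false]
      have h1 : LipschitzWith 1 (fun y : X => ‖y‖) := lipschitzWith_one_norm
      have := norm_fderiv_le_of_lipschitz ℝ h1 (x₀ := x)
      simpa using this
  · intro x
    by_cases hx : x = 0
    · simp [hx]
    · simp only [hx, if_false]
      exact (h x hx).fderiv_norm_self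
  · intro x hx ε hε
    simp only [hx, if_false]
    exact Smooth.smulyan_aux x (h x hx) ε hε

/-- continuity of the derivative -/
theorem IsSm.tendsto {X : Type*} [NormedAddCommGroup X] [NormedSpace ℝ X]
    {f : X → (X →L[ℝ] ℝ)} (hf : IsSm f) {ι : Type*} {l : Filter ι} {y : ι → X} {x : X}
    (hx : x ≠ 0) (hy : Tendsto y l (𝓝 x)) : Tendsto (fun i => f (y i)) l (𝓝 (f x)) := by
  rw [Metric.tendsto_nhds]
  intro ε hε
  obtain ⟨δ, hδ, hs⟩ := hf.smulyan x hx (ε / 2) (half_pos hε)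
  have h1 : ∀ᶠ i in l, dist (y i) x < δ / 2 := (Metric.tendsto_nhds.mp hy) _ (half_pos hδ)
  filter_upwards [h1] with i hi
  rw [dist_eq_norm] at hi ⊢
  have h2 : ‖x‖ - δ ≤ f (y i) x := by
    have h3 : f (y i) (y i - x) ≤ ‖y i - x‖ := by
      calc f (y i) (y i - x) ≤ ‖f (y i) (y i - x)‖ :=
            le_trans (le_abs_self _) (le_of_eq (Real.norm_eq_abs _).symm)
        _ ≤ ‖f (y i)‖ * ‖y i - x‖ := (f (y i)).le_opNorm _
        _ ≤ 1 * ‖y i - x‖ := by
          gcongr
          exact hf.norm_le _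
        _ = ‖y i - x‖ := one_mul _
    rw [map_sub, hf.self] at h3
    have h4 : ‖x‖ ≤ ‖y i‖ + ‖y i - x‖ := by
      have := norm_sub_norm_le x (y i)
      rw [norm_sub_rev] at this
      linarith
    linarith
  have h5 := hs (f (y i)) (hf.norm_le _) h2
  linarith

end Pool.Agent.Helper74.Full
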