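import Pool.Agent.Helper74.Full.Ekeland
import Pool.Agent.Helper74.Full.Smooth

set_option autoImplicit false

open scoped Topology
open Filter Set

namespace Pool.Agent.Helper74.Full

namespace Detect

variable {X : Type*} [NormedAddCommGroup X] [NormedSpace ℝ X]

theorem zero_mem {V : Set X} (hV : IsQ V) : (0 : X) ∈ closure V := subset_closure hV.zero

theorem add_mem {V : Set X} (hV : IsQ V) {x y : X} (hx : x ∈ closure V) (hy : y ∈ closure V) :
    x + y ∈ closure V :=
  map_mem_closure₂ continuous_add hx hy hV.add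

theorem smul_mem {V : Set X} (hV : IsQ V) (c : ℝ) {x : X} (hx : x ∈ closure V) :
    c • x ∈ closure V := by
  have hc : c ∈ closure (Set.range ((↑) : ℚ → ℝ)) := Rat.denseRange_cast c
  refine map_mem_closure₂ (f := fun (a : ℝ) (b : X) => a • b) continuous_smul hc hx ?_
  rintro a ⟨q, rfl⟩ b hb
  exact hV.smul q b hb

/-- A form of the Ekeland principle on the closure of `V`. -/
theorem ekeland_closure [CompleteSpace X] {V : Set X} (hV : IsQ V) (φ : X → ℝ)
    (hφ : Continuous φ) (B : ℝ) (hB : ∀ y, B ≤ φ y) (ε : ℝ) (hε : 0 < ε) :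
    ∃ y ∈ closure V, φ y + ε * ‖y‖ ≤ φ 0 ∧ ∀ z ∈ closure V, φ y ≤ φ z + ε * ‖y - z‖ := by
  have : CompleteSpace (closure V) := isClosed_closure.completeSpace_coe
  obtain ⟨y, h1, h2⟩ := ekeland (fun y : closure V => φ y.1) (hφ.comp continuous_subtype_val) B
    (fun y => hB y.1) ε hε ⟨0, zero_mem hV⟩
  refine ⟨y.1, y.2, ?_, ?_⟩
  · have h3 : dist (⟨0, zero_mem hV⟩ : closure V) y = ‖y.1‖ := by
      rw [Subtype.dist_eq, dist_eq_norm, zero_sub, norm_neg]
    rw [h3] at h1
    exact h1
  · intro z hz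
    have h3 := h2 ⟨z, hz⟩
    rw [Subtype.dist_eq, dist_eq_norm] at h3
    exact h3

theorem apply_le {f : X → (X →L[ℝ] ℝ)} (hf : IsSm f) (x y : X) : f x y ≤ ‖y‖ := by
  have h1 := (f x).le_opNorm y
  have h2 := mul_le_mul_of_nonneg_right (hf.norm_le x) (norm_nonneg y)
  have h3 := le_abs_self (f x y)
  rw [Real.norm_eq_abs] at h1
  linarith

end Detect

open Detect

theorem detect {X : Type*} [NormedAddCommGroup X] [NormedSpace ℝ X] [CompleteSpace X]
    {f : X → (X →L[ℝ] ℝ)} (hf : IsSm f) (V : Set X) (hV : IsQ V) (x : X) (hx : x ≠ 0)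
    (h : ∀ z ∈ V, ‖z‖ < 1 → ∀ C : ℝ, (∀ u ∈ V, f (x - ‖x‖ • z) u ≤ C * ‖u‖) → 1 ≤ C) :
    x ∈ closure V := by
  have hxn : 0 < ‖x‖ := norm_pos_iff.2 hx
  have key : ∀ c : ℝ, 0 < c → c < ‖x‖ → ∃ v ∈ closure V, ‖x - v‖ ≤ ‖x‖ - c := by
    intro c hc hcx
    obtain ⟨z, hzV, hz1, hz2⟩ := ekeland_closure hV (fun z => ‖x - ‖x‖ • z‖) (by fun_prop) 0
      (fun _ => norm_nonneg _) c hc
    simp only [smul_zero, sub_zero] at hz1
    by_cases hz : 1 ≤ ‖z‖
    · refine ⟨‖x‖ • z, smul_mem hV _ hzV, ?_⟩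
      nlinarith
    · exfalso
      push Not at hz
      set y := x - ‖x‖ • z with hy
      have hy0 : y ≠ 0 := by
        intro h0
        rw [hy, sub_eq_zero] at h0
        have h1 := congrArg norm h0
        rw [norm_smul, norm_norm] at h1
        nlinarith
      have hlim : ∀ u ∈ closure V, ‖x‖ * f y u ≤ c * ‖u‖ := by
        intro u hu
        have hyt : Tendsto (fun t : ℝ => x - ‖x‖ • (z + t • u)) (𝓝[>] 0) (𝓝 y) := by
          have hc : Continuous (fun t : ℝ => x - ‖x‖ • (z + t • u)) := by fun_prop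
          have h1 := hc.tendsto 0
          simp only [zero_smul, add_zero] at h1
          exact h1.mono_left nhdsWithin_le_nhds
        have h2 := (hf.tendsto hy0 hyt)
        have h3 : Tendsto (fun t : ℝ => ‖x‖ * f (x - ‖x‖ • (z + t • u)) u) (𝓝[>] 0)
            (𝓝 (‖x‖ * f y u)) := by
          have hc : Continuous (fun g : X →L[ℝ] ℝ => ‖x‖ * g u) := by fun_prop
          exact (hc.tendsto _).comp h2
        refine le_of_tendsto h3 ?_
        filter_upwards [self_mem_nhdsWithin] with t ht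
        have ht0 : (0 : ℝ) < t := ht
        set yt := x - ‖x‖ • (z + t • u) with hyt'
        have e1 : yt = y - (t * ‖x‖) • u := by
          rw [hyt', hy]
          module
        have h4 : ‖yt‖ = f yt y - (t * ‖x‖) * f yt u := by
          rw [← hf.self yt, show f yt yt = f yt (y - (t * ‖x‖) • u) from congrArg (f yt) e1,
            map_sub, map_smul, smul_eq_mul]
        have h6 := apply_le hf yt y
        have h7 := hz2 (z + t • u) (add_mem hV hzV (smul_mem hV t hu))
        have h8 : ‖z - (z + t • u)‖ = t * ‖u‖ := by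
          rw [show z - (z + t • u) = -(t • u) by abel, norm_neg, norm_smul,
            Real.norm_of_nonneg ht0.le]
        rw [h8] at h7
        have h9 : t * (‖x‖ * f yt u) ≤ t * (c * ‖u‖) := by
          have : ‖y‖ ≤ ‖yt‖ + c * (t * ‖u‖) := h7
          nlinarith
        exact le_of_mul_le_mul_left h9 ht0
      obtain ⟨v, hvV, hv⟩ := mem_closure_iff_seq_limit.1 hzV
      have hv1 : Tendsto (fun n => x - ‖x‖ • v n) atTop (𝓝 y) :=
        tendsto_const_nhds.sub (hv.const_smul ‖x‖)
      have hv2 := hf.tendsto hy0 hv1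
      have hall : ∀ η : ℝ, 0 < η → 1 ≤ c / ‖x‖ + η := by
        intro η hη
        have e1 : ∀ᶠ n in atTop, ‖v n‖ < 1 :=
          (hv.norm).eventually (gt_mem_nhds hz)
        have e2 : ∀ᶠ n in atTop, ‖f (x - ‖x‖ • v n) - f y‖ < η := by
          have h1 := (hv2.sub_const (f y)).norm
          rw [sub_self, norm_zero] at h1
          exact h1.eventually (gt_mem_nhds hη)
        obtain ⟨n, hn1, hn2⟩ := (e1.and e2).exists
        refine h (v n) (hvV n) hn1 _ ?_
        intro u hu
        have h3 := hlim u (subset_closure hu)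
        have h4 : f y u ≤ c / ‖x‖ * ‖u‖ := by
          rw [div_mul_eq_mul_div, le_div_iff₀ hxn]
          linarith
        have h5 : f (x - ‖x‖ • v n) u - f y u ≤ η * ‖u‖ := by
          have h6 := (f (x - ‖x‖ • v n) - f y).le_opNorm u
          have h7 := mul_le_mul_of_nonneg_right hn2.le (norm_nonneg u)
          rw [sub_apply, Real.norm_eq_abs] at h6
          have h8 := le_abs_self (f (x - ‖x‖ • v n) u - f y u)
          linarith
        linarith
      have h1 : 1 ≤ c / ‖x‖ := le_of_forall_pos_le_add hall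
      rw [le_div_iff₀ hxn] at h1
      linarith
  rw [← closure_closure, Metric.mem_closure_iff]
  intro ε hε
  obtain ⟨v, hv, hv2⟩ := key (max (‖x‖ - ε / 2) (‖x‖ / 2))
    (lt_of_lt_of_le (by positivity) (le_max_right _ _)) (max_lt (by linarith) (by linarith))
  refine ⟨v, hv, ?_⟩
  rw [dist_eq_norm]
  have := le_max_left (‖x‖ - ε / 2) (‖x‖ / 2)
  linarith

end Pool.Agent.Helper74.Full
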