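import Pool.Agent.Helper74.Full.Defs

/-!
Countable closure of a set under countably many binary operations.
-/

set_option autoImplicit false

open scoped Topology
open Filter Set

namespace Pool.Agent.Helper74.Full

namespace Closing

/-- one closing step -/
def step {ι E : Type*} (op : ι → E → E → E) (A : Set E) : Set E :=
  A ∪ ⋃ i, Set.image2 (op i) A A

theorem subset_step {ι E : Type*} (op : ι → E → E → E) (A : Set E) : A ⊆ step op A :=
  Set.subset_union_left

theorem step_countable {ι E : Type*} [Countable ι] (op : ι → E → E → E) {A : Set E}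
    (hA : A.Countable) : (step op A).Countable :=
  hA.union (Set.countable_iUnion fun i => hA.image2 hA (op i))

theorem step_mono {ι E : Type*} (op : ι → E → E → E) {A B : Set E} (h : A ⊆ B) :
    step op A ⊆ step op B :=
  Set.union_subset_union h (Set.iUnion_mono fun _ => Set.image2_subset h h)

theorem mem_step {ι E : Type*} (op : ι → E → E → E) {A : Set E} (i : ι) {x y : E}
    (hx : x ∈ A) (hy : y ∈ A) : op i x y ∈ step op A :=
  Or.inr (Set.mem_iUnion.2 ⟨i, Set.mem_image2_of_mem hx hy⟩)

/-- iterated steps -/
def iter {ι E : Type*} (op : ι → E → E → E) (S : Set E) : ℕ → Set E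
  | 0 => S
  | k + 1 => step op (iter op S k)

theorem iter_le {ι E : Type*} (op : ι → E → E → E) (S : Set E) :
    Monotone (iter op S) :=
  monotone_nat_of_le_succ fun _ => subset_step op _

theorem iter_countable {ι E : Type*} [Countable ι] (op : ι → E → E → E) {S : Set E}
    (hS : S.Countable) : ∀ k, (iter op S k).Countable
  | 0 => hS
  | k + 1 => step_countable op (iter_countable op hS k)

theorem iter_mono {ι E : Type*} (op : ι → E → E → E) {S T : Set E} (h : S ⊆ T) :
    ∀ k, iter op S k ⊆ iter op T k
  | 0 => h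
  | k + 1 => step_mono op (iter_mono op h k)

end Closing

open Closing in
theorem closing {ι E : Type*} [Countable ι] (op : ι → E → E → E) :
    ∃ cl : Set E → Set E, (∀ S, S ⊆ cl S) ∧ (∀ S, S.Countable → (cl S).Countable) ∧
      (∀ S T, S ⊆ T → cl S ⊆ cl T) ∧
      (∀ S i x y, x ∈ cl S → y ∈ cl S → op i x y ∈ cl S) := by
  refine ⟨fun S => ⋃ k, iter op S k, ?_, ?_, ?_, ?_⟩
  · intro S x hx
    exact Set.mem_iUnion.2 ⟨0, hx⟩
  · intro S hS
    exact Set.countable_iUnion fun k => iter_countable op hS k
  · intro S T h
    exact Set.iUnion_mono fun k => iter_mono op h k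
  · intro S i x y hx hy
    obtain ⟨a, ha⟩ := Set.mem_iUnion.1 hx
    obtain ⟨b, hb⟩ := Set.mem_iUnion.1 hy
    refine Set.mem_iUnion.2 ⟨max a b + 1, ?_⟩
    exact mem_step op i (iter_le op S (le_max_left a b) ha) (iter_le op S (le_max_right a b) hb)

end Pool.Agent.Helper74.Full
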