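import Mathlib
import Pool.Agent.Helper74.Rsd.Defs

/-!
Definitions for the full residuality theorem for Fréchet smooth norms.
-/

set_option autoImplicit false

open scoped Topology
open Filter Set

namespace Pool.Agent.Helper74.Full

/-! ### abstract transition operators -/

section Ker

variable {S P : Type*}

/-- the transition operator -/
noncomputable def av (τ : S → P → S) (w : S → P → ℝ) (G : S → ℝ) (F : S) : ℝ :=
  ∑' p, w F p * G (τ F p)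

/-- the accumulated value over `J` steps with discount `s` -/
noncomputable def acc (τ : S → P → S) (w : S → P → ℝ) (s : ℝ) (G : S → ℝ) : ℕ → S → ℝ
  | 0 => G
  | J + 1 => fun F => G F + s * av τ w (acc τ w s G J) F

/-- probability weights -/
structure IsProb (w : S → P → ℝ) : Prop where
  nonneg : ∀ F p, 0 ≤ w F p
  hasSum : ∀ F, HasSum (w F) 1

/-- reachable states -/
inductive Reach (τ : S → P → S) (w : S → P → ℝ) (F₀ : S) : S → Prop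
  | base : Reach τ w F₀ F₀
  | step (F : S) (p : P) : Reach τ w F₀ F → w F p ≠ 0 → Reach τ w F₀ (τ F p)

end Ker

variable {X : Type*} [NormedAddCommGroup X] [NormedSpace ℝ X]

/-- norming functionals of a Fréchet smooth norm, with the test of Šmulyan -/
structure IsSm (f : X → (X →L[ℝ] ℝ)) : Prop where
  zero : f 0 = 0
  norm_le : ∀ x, ‖f x‖ ≤ 1
  self : ∀ x, f x x = ‖x‖
  smulyan : ∀ x, x ≠ 0 → ∀ ε > 0, ∃ δ > 0, ∀ k : X →L[ℝ] ℝ,
    ‖k‖ ≤ 1 → ‖x‖ - δ ≤ k x → ‖k - f x‖ ≤ ε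

/-- the closure conditions for a set of vectors: an additive group, stable under
rational multiples -/
structure IsQ (V : Set X) : Prop where
  zero : (0 : X) ∈ V
  add : ∀ x ∈ V, ∀ y ∈ V, x + y ∈ V
  smul : ∀ (c : ℚ), ∀ x ∈ V, ((c : ℝ) • x) ∈ V

/-- `V` decides the inequality `φ ≤ N + C ‖·‖` for rational `C` -/
def Tests (V : Set X) (N : X → ℝ) (φ : X →L[ℝ] ℝ) : Prop :=
  ∀ C : ℚ, (∀ u ∈ V, φ u ≤ N u + C * ‖u‖) → ∀ u, φ u ≤ N u + C * ‖u‖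

/-- admissible cost functions on the dual space -/
structure GoodCost (c : (X →L[ℝ] ℝ) → ℝ) : Prop where
  nonneg : ∀ h, 0 ≤ c h
  even : ∀ h, c (-h) = c h
  mid : ∀ h h', 2 * c ((1 / 2 : ℝ) • (h + h')) ≤ c h + c h'
  lsc : ∀ h₀, ∀ δ > (0 : ℝ), ∃ (u : X) (t : ℝ), (∀ h, h u + t ≤ c h) ∧ c h₀ ≤ h₀ u + t + δ

/-- the midpoint gap of a cost function -/
noncomputable def gap (c : (X →L[ℝ] ℝ) → ℝ) (h h' : X →L[ℝ] ℝ) : ℝ :=
  c h + c h' - 2 * c ((1 / 2 : ℝ) • (h + h'))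

variable (X)

/-- the fixed data attached to a Fréchet smooth norm -/
structure Dat where
  /-- derivatives of the norm -/
  f : X → (X →L[ℝ] ℝ)
  /-- countable sets attached to finite sets of functionals -/
  V : Finset (X →L[ℝ] ℝ) → Set X
  /-- weights on points and precisions -/
  ρ : Finset (X →L[ℝ] ℝ) → X × ℕ → ℝ
  /-- `m ν D k`: weight of `D` in the partition of unity of mesh `1/(ν+1)` at `k` -/
  m : ℕ → (X →L[ℝ] ℝ) → (X →L[ℝ] ℝ) → ℝ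
  sm : IsSm f
  V_q : ∀ F, IsQ (V F)
  V_mono : ∀ F G, F ⊆ G → V F ⊆ V G
  V_countable : ∀ F, (V F).Countable
  V_tests : ∀ F, ∀ D ∈ F, Tests (V F) (fun _ => 0) D
  ρ_nonneg : ∀ F q, 0 ≤ ρ F q
  ρ_hasSum : ∀ F, HasSum (ρ F) 1
  ρ_symm : ∀ F z ν, ρ F (-z, ν) = ρ F (z, ν)
  ρ_ne : ∀ F z ν, ρ F (z, ν) ≠ 0 ↔ z ∈ V F ∧ ‖z‖ < 1
  m_nonneg : ∀ ν D k, 0 ≤ m ν D k
  m_hasSum : ∀ ν k, HasSum (fun D => m ν D k) 1
  m_even : ∀ ν D k, m ν D (-k) = m ν D k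
  m_cont : ∀ ν D, Continuous (m ν D)
  m_near : ∀ ν D k, m ν D k ≠ 0 → ‖k - D‖ ≤ 1 / (ν + 1) ∨ ‖k + D‖ ≤ 1 / (ν + 1)

variable {X}

open Classical in
/-- the step map: insert the new functional -/
noncomputable def st (F : Finset (X →L[ℝ] ℝ)) (p : (X × ℕ) × (X →L[ℝ] ℝ)) :
    Finset (X →L[ℝ] ℝ) := insert p.2 F

/-- admissible parameters -/
def Adm (k : X → (X →L[ℝ] ℝ)) : Prop := ∀ z, ‖k z‖ ≤ 1

namespace Dat

variable (d : Dat X)

/-- transition weights for the parameter `k` -/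
noncomputable def w (k : X → (X →L[ℝ] ℝ)) (F : Finset (X →L[ℝ] ℝ))
    (p : (X × ℕ) × (X →L[ℝ] ℝ)) : ℝ :=
  d.ρ F p.1 * d.m p.1.2 p.2 (k p.1.1)

/-- the linear part carried by the state `F` -/
noncomputable def ph (k : X → (X →L[ℝ] ℝ)) (x : X) (F : Finset (X →L[ℝ] ℝ)) : ℝ :=
  ∑' q : X × ℕ, d.ρ F q * k q.1 (x - (k 0 x) • q.1)

/-- the coupling functional -/
noncomputable def T (s : ℝ) (J : ℕ) (k : X → (X →L[ℝ] ℝ)) (x : X) : ℝ :=
  k 0 x + s * acc st (d.w k) s (d.ph k x) J ∅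

/-- the accumulated cost -/
noncomputable def Om (J : ℕ) (c : Finset (X →L[ℝ] ℝ) → (X →L[ℝ] ℝ) → ℝ)
    (h : X →L[ℝ] ℝ) (k : X → (X →L[ℝ] ℝ)) : ℝ :=
  acc st (d.w k) (1 / 2) (fun F => c F h) J ∅

/-- the functionals whose supremum is the perturbed norm -/
noncomputable def L (ε s κ : ℝ) (J : ℕ) (c : Finset (X →L[ℝ] ℝ) → (X →L[ℝ] ℝ) → ℝ)
    (h : X →L[ℝ] ℝ) (k : X → (X →L[ℝ] ℝ)) (x : X) : ℝ :=
  h x + ε * (d.T s J k x - κ * d.Om J c h k * k 0 x)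

/-- the perturbed norm -/
noncomputable def Q (ε s κ : ℝ) (J : ℕ) (c : Finset (X →L[ℝ] ℝ) → (X →L[ℝ] ℝ) → ℝ)
    (p : X → ℝ) (x : X) : ℝ :=
  sSup {r | ∃ (h : X →L[ℝ] ℝ) (k : X → (X →L[ℝ] ℝ)),
    (∀ z, h z ≤ p z) ∧ Adm k ∧ r = d.L ε s κ J c h k x}

end Dat

end Pool.Agent.Helper74.Full
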